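import Pool.Agent.L0h99.MN.Stm

/-!
# MN, module SDT: sets of radius at most two
-/

set_option autoImplicit false
set_option linter.unusedSectionVars false

namespace Pool.Agent.L0h55.MN

open Finset Pool.Agent.L0h99.MN

variable {V : Type} [DecidableEq V]

theorem lk_of_walk {G : SimpleGraph V} {P : Finset V} {x y : V} {n : ℕ} (p : G.Walk x y)
    (h1 : p.length ≤ n) (h2 : ∀ z ∈ p.support, z ∈ P) : Lk G P x y n :=
  ⟨p.bypass, p.bypass_isPath, (p.length_bypass_le_length).trans h1,
    fun z hz => h2 z (p.support_bypass_subset_support hz)⟩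

theorem lk_mono {G : SimpleGraph V} {P : Finset V} {x y : V} {m n : ℕ} (h : Lk G P x y m)
    (hmn : m ≤ n) : Lk G P x y n := by
  obtain ⟨p, h1, h2, h3⟩ := h
  exact ⟨p, h1, h2.trans hmn, h3⟩

/-- a walk from the centre with at most two edges -/
theorem walk_centre {G : SimpleGraph V} {T : Finset V} {c : V} (hc : c ∈ T) {x : V} (hx : x ∈ T)
    (h : x = c ∨ G.Adj c x ∨ ∃ y ∈ T, G.Adj c y ∧ G.Adj y x) :
    ∃ p : G.Walk c x, p.length ≤ 2 ∧ ∀ z ∈ p.support, z ∈ T := by
  rcases h with h | h | ⟨y, hy, h1, h2⟩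
  · subst h
    refine ⟨SimpleGraph.Walk.nil, by simp, fun z hz => ?_⟩
    rw [SimpleGraph.Walk.support_nil, List.mem_singleton] at hz
    rw [hz]
    exact hc
  · refine ⟨SimpleGraph.Walk.cons h SimpleGraph.Walk.nil, by simp, fun z hz => ?_⟩
    rw [SimpleGraph.Walk.support_cons, SimpleGraph.Walk.support_nil, List.mem_cons,
      List.mem_singleton] at hz
    rcases hz with rfl | rfl
    · exact hc
    · exact hx
  · refine ⟨SimpleGraph.Walk.cons h1 (SimpleGraph.Walk.cons h2 SimpleGraph.Walk.nil), by simp,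
      fun z hz => ?_⟩
    rw [SimpleGraph.Walk.support_cons, SimpleGraph.Walk.support_cons,
      SimpleGraph.Walk.support_nil, List.mem_cons, List.mem_cons, List.mem_singleton] at hz
    rcases hz with rfl | rfl | rfl
    · exact hc
    · exact hy
    · exact hx

/-- **SDT** -/
theorem SDT : St_SDT := by
  intro V _ _ G A T hT _
  obtain ⟨c, hc, h⟩ := hT
  have key : ∀ x ∈ T, ∀ y ∈ T, Lk G T x y 4 := by
    intro x hx y hy
    obtain ⟨p, hp, hp'⟩ := walk_centre hc hx (h x hx)
    obtain ⟨q, hq, hq'⟩ := walk_centre hc hy (h y hy)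
    refine lk_of_walk (p.reverse.append q) ?_ ?_
    · rw [SimpleGraph.Walk.length_append, SimpleGraph.Walk.length_reverse]
      omega
    · intro z hz
      rw [SimpleGraph.Walk.mem_support_append_iff, SimpleGraph.Walk.support_reverse,
        List.mem_reverse] at hz
      rcases hz with hz | hz
      · exact hp' z hz
      · exact hq' z hz
  exact ⟨⟨c, hc⟩, fun _ => true, fun x hx y hy =>
    ⟨lk_mono (key x hx y hy) (by norm_num), fun _ => key x hx y hy⟩⟩

end Pool.Agent.L0h55.MN
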